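import Pool.Agent.helper20.Sz.B1

/-! Module SZ-C1d: chain map, inner part, one double block. -/

open scoped symmDiff

namespace Pool.Agent.helper20.Sz
namespace C1d
variable {X E : Type} [DecidableEq X] [Fintype E] [DecidableEq E] {K : Cube X E} {eta : X → Bool}

/-- same block -/
def Blk (𝒟 : Finset (Finset E)) (x y : E) : Prop := ∀ D ∈ 𝒟, (x ∈ D ↔ y ∈ D)

/-- `z` is in a block before the block of `x0` -/
def Bef (𝒟 : Finset (Finset E)) (x0 z : E) : Prop := ∃ D ∈ 𝒟, z ∈ D ∧ x0 ∉ D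

/-- `c` is ordered by `𝒟` -/
def R (K : Cube X E) (𝒟 : Finset (Finset E)) (c : X) : Prop :=
  ∃ D ∈ 𝒟, K.head c ∈ D ∧ K.tail c ∉ D

/-- `c` leads from `y0` to `x0` -/
def J (K : Cube X E) (u : Finset X) (x0 y0 : E) (c : X) : Prop :=
  K.same u (K.head c) x0 ∧ K.same u (K.tail c) y0

/-- the common conditions -/
structure Base (K : Cube X E) (v u : Finset X) (s : E → Bool) (𝒟 : Finset (Finset E))
    (x0 y0 : E) : Prop where
  sub : v ⊆ u
  first : ∀ x, s x = false ↔ ∀ D ∈ 𝒟, x ∈ D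
  spl : K.Spl v (u \ v)
  lab : ∀ c ∈ u \ v, s (K.tail c) = true ∧ s (K.head c) = true
  tb : ∀ x y, s x = true → Blk 𝒟 x y → K.same u x y ∨ (K.same u x x0 ∧ K.same u y y0) ∨
    (K.same u x y0 ∧ K.same u y x0)

theorem Base.swap {v u : Finset X} {s : E → Bool} {𝒟 : Finset (Finset E)} {x0 y0 : E}
    (h : Base K v u s 𝒟 x0 y0) : Base K v u s 𝒟 y0 x0 where
  sub := h.sub
  first := h.first
  spl := h.spl
  lab := h.lab
  tb := fun x y hx hb => by
    rcases h.tb x y hx hb with h1 | h1 | h1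
    · exact Or.inl h1
    · exact Or.inr (Or.inr h1)
    · exact Or.inr (Or.inl h1)

theorem Blk.symm {𝒟 : Finset (Finset E)} {x y : E} (h : Blk 𝒟 x y) : Blk 𝒟 y x :=
  fun D hD => (h D hD).symm

theorem Blk.trans {𝒟 : Finset (Finset E)} {x y z : E} (h : Blk 𝒟 x y) (h' : Blk 𝒟 y z) :
    Blk 𝒟 x z := fun D hD => (h D hD).trans (h' D hD)

theorem blk_same {u : Finset X} {𝒟 : Finset (Finset E)} (hv : K.Valid u 𝒟) {x y : E}
    (h : K.same u x y) : Blk 𝒟 x y := fun D hD => hv.sat D hD x y h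

theorem J_blk (hK : K.IsCore) {u : Finset X} {𝒟 : Finset (Finset E)} (hv : K.Valid u 𝒟)
    {x0 y0 : E} (hb : Blk 𝒟 x0 y0) {c : X} (h : J K u x0 y0 c) :
    Blk 𝒟 (K.tail c) (K.head c) :=
  (blk_same hv h.2).trans (hb.symm.trans (blk_same hv (B1.symm hK h.1)))

theorem R_of_blk {𝒟 : Finset (Finset E)} {c : X} (h : Blk 𝒟 (K.tail c) (K.head c)) :
    ¬ R K 𝒟 c := by
  rintro ⟨D, hD, h1, h2⟩
  exact h2 ((h D hD).2 h1)

theorem J_nonloop (hK : K.IsCore) {u : Finset X} {x0 y0 : E} (hne : ¬ K.same u x0 y0) {c : X}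
    (h : J K u x0 y0 c) : ¬ K.Loop u c := fun hl =>
  hne (B1.trans hK (B1.symm hK h.1) (B1.trans hK (B1.symm hK hl) h.2))

theorem J_merge (hK : K.IsCore) {u : Finset X} {x0 y0 : E} (hne : ¬ K.same u x0 y0) {c : X}
    (h : J K u x0 y0 c) : K.same (u ∆ {c}) x0 y0 := by
  have hc := J_nonloop hK hne h
  exact (hK.merge u c hc _ _).2 (Or.inr (Or.inr ⟨B1.symm hK h.1, h.2⟩))

theorem sd_sub {v u : Finset X} (h : v ⊆ u) : v ∆ (u \ v) = u := by
  ext x
  simp only [Finset.mem_symmDiff, Finset.mem_sdiff]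
  constructor
  · rintro (⟨h1, _⟩ | ⟨⟨h1, _⟩, _⟩)
    · exact h h1
    · exact h1
  · intro hx
    by_cases hv : x ∈ v
    · exact Or.inl ⟨hv, fun h' => h'.2 hv⟩
    · exact Or.inr ⟨⟨hx, hv⟩, hv⟩

theorem sd_sub' {v u : Finset X} (h : v ⊆ u) : u ∆ (u \ v) = v := by
  conv_lhs => rw [← sd_sub h]
  rw [sd_sub h]
  ext x
  simp only [Finset.mem_symmDiff, Finset.mem_sdiff]
  constructor
  · rintro (⟨h1, h2⟩ | ⟨⟨h1, _⟩, h3⟩)
    · by_contra hv
      exact h2 ⟨h1, hv⟩
    · exact absurd h1 h3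
  · intro hx
    exact Or.inl ⟨h hx, fun h' => h'.2 hx⟩

theorem forest (hK : K.IsCore) {v u : Finset X} (hvu : v ⊆ u) (hs : K.Spl v (u \ v)) {x0 y0 : E}
    (hne : ¬ K.same u x0 y0) {c c' : X} (hc : c ∈ u \ v) (hc' : c' ∈ u \ v) (hcc : c' ≠ c)
    (h : K.same (u ∆ {c}) x0 y0) (hnl : ¬ K.Loop u c)
    (h' : J K u x0 y0 c' ∨ J K u y0 x0 c') : False := by
  have hm : K.Mrg u (u \ v) := by
    unfold Cube.Mrg Cube.Spl at *
    rw [sd_sub hvu] at hs
    rw [sd_sub' hvu]
    omega
  have h1 := ((B1.mrg_iff hK (H := {c}) (G := u \ v) (by simpa using hc)).1 hm).2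
  have h2 := (B1.mrg_loop hK h1 c' (by
    rw [Finset.mem_sdiff, Finset.mem_singleton]
    exact ⟨hc', hcc⟩)).1
  apply h2
  have co := fun (x y : E) (hxy : K.same u x y) => B1.coarser1 hK hnl hxy
  rcases h' with ⟨h3, h4⟩ | ⟨h3, h4⟩
  · exact B1.trans hK (co _ _ h4) (B1.trans hK (B1.symm hK h) (B1.symm hK (co _ _ h3)))
  · exact B1.trans hK (co _ _ h4) (B1.trans hK h (B1.symm hK (co _ _ h3)))

section
open Classical

/-- the set which cuts the double block after `x0` -/
noncomputable def D1 (K : Cube X E) (u : Finset X) (𝒟 : Finset (Finset E)) (x0 : E) : Finset E :=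
  Finset.univ.filter fun z => Bef 𝒟 x0 z ∨ K.same u z x0

theorem mem_D1 {u : Finset X} {𝒟 : Finset (Finset E)} {x0 z : E} :
    z ∈ D1 K u 𝒟 x0 ↔ Bef 𝒟 x0 z ∨ K.same u z x0 := by
  unfold D1
  simp

theorem Bef_blk {𝒟 : Finset (Finset E)} {x0 z z' : E} (h : Blk 𝒟 z z') (hb : Bef 𝒟 x0 z) :
    Bef 𝒟 x0 z' := by
  obtain ⟨D, hD, h1, h2⟩ := hb
  exact ⟨D, hD, (h D hD).1 h1, h2⟩

theorem not_Bef {𝒟 : Finset (Finset E)} {x0 z : E} (h : Blk 𝒟 z x0) : ¬ Bef 𝒟 x0 z := by
  rintro ⟨D, hD, h1, h2⟩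
  exact h2 ((h D hD).1 h1)

theorem sat_D1 (hK : K.IsCore) {u : Finset X} {𝒟 : Finset (Finset E)} (hv : K.Valid u 𝒟)
    {x0 x y : E} (h : K.same u x y) : x ∈ D1 K u 𝒟 x0 ↔ y ∈ D1 K u 𝒟 x0 := by
  rw [mem_D1, mem_D1]
  constructor
  · rintro (h1 | h1)
    · exact Or.inl (Bef_blk (blk_same hv h) h1)
    · exact Or.inr (B1.trans hK (B1.symm hK h) h1)
  · rintro (h1 | h1)
    · exact Or.inl (Bef_blk (blk_same hv h).symm h1)
    · exact Or.inr (B1.trans hK h h1)

theorem x0_mem (hK : K.IsCore) (u : Finset X) (𝒟 : Finset (Finset E)) (x0 : E) :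
    x0 ∈ D1 K u 𝒟 x0 := mem_D1.2 (Or.inr (B1.refl hK u x0))

theorem y0_notMem (hK : K.IsCore) {u : Finset X} {𝒟 : Finset (Finset E)} {x0 y0 : E}
    (hb : Blk 𝒟 x0 y0) (hne : ¬ K.same u x0 y0) : y0 ∉ D1 K u 𝒟 x0 := by
  rw [mem_D1]
  rintro (h | h)
  · exact not_Bef hb.symm h
  · exact hne (B1.symm hK h)

/-- terms of the second sum -/
theorem xi0_D1 (hK : K.IsCore) {P : E} {v u : Finset X} {s : E → Bool} {𝒟 : Finset (Finset E)}
    (hv : K.Valid u 𝒟) (hn : Nrm P 𝒟) {x0 y0 : E} (hx0 : s x0 = true) (hb : Blk 𝒟 x0 y0)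
    (hne : ¬ K.same u x0 y0) :
    K.Xi0 P v s u (insert (D1 K u 𝒟 x0) 𝒟) ↔
      Base K v u s 𝒟 x0 y0 ∧ ∀ c ∈ u \ v, R K 𝒟 c ∨ J K u x0 y0 c := by
  have hx := x0_mem hK u 𝒟 x0
  have hy := y0_notMem hK hb hne
  constructor
  · intro H
    have h0 : ∃ D ∈ 𝒟, x0 ∉ D := by
      by_contra hno
      push Not at hno
      have : s x0 = false := (H.first x0).2 (by
        intro D hD
        rcases Finset.mem_insert.1 hD with rfl | hD
        · exact hx
        · exact hno D hD)
      rw [this] at hx0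
      exact absurd hx0 (by decide)
    have first : ∀ x, s x = false ↔ ∀ D ∈ 𝒟, x ∈ D := by
      intro x
      rw [H.first x]
      constructor
      · intro h D hD
        exact h D (Finset.mem_insert_of_mem hD)
      · intro h D hD
        rcases Finset.mem_insert.1 hD with rfl | hD
        · obtain ⟨D, hD, h1⟩ := h0
          exact mem_D1.2 (Or.inl ⟨D, hD, h D hD, h1⟩)
        · exact h D hD
    have strue : ∀ x y, s x = true → Blk 𝒟 x y → s y = true := by
      intro x y h1 h2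
      by_contra h3
      have h4 : s y = false := by simpa using h3
      have h5 : s x = false := (first x).2 fun D hD => (h2 D hD).2 ((first y).1 h4 D hD)
      rw [h5] at h1
      exact absurd h1 (by decide)
    have blkins : ∀ x y, Blk 𝒟 x y → (x ∈ D1 K u 𝒟 x0 ↔ y ∈ D1 K u 𝒟 x0) →
        ∀ D ∈ insert (D1 K u 𝒟 x0) 𝒟, (x ∈ D ↔ y ∈ D) := by
      intro x y h1 h2 D hD
      rcases Finset.mem_insert.1 hD with rfl | hD
      · exact h2
      · exact h1 D hD
    -- x in D1, y not, same block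
    have aux : ∀ x y, s y = true → Blk 𝒟 x y → x ∈ D1 K u 𝒟 x0 → y ∉ D1 K u 𝒟 x0 →
        K.same u x x0 ∧ K.same u y y0 := by
      intro x y hsy hxy h1 h2
      rcases mem_D1.1 h1 with h3 | h3
      · exact absurd (mem_D1.2 (Or.inl (Bef_blk hxy h3))) h2
      · refine ⟨h3, ?_⟩
        refine H.single y y0 hsy (blkins y y0 ?_ ?_)
        · exact hxy.symm.trans ((blk_same hv h3).trans hb)
        · exact ⟨fun h => absurd h h2, fun h => absurd h hy⟩
    refine ⟨⟨H.sub, first, H.spl, H.lab, ?_⟩, ?_⟩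
    · intro x y hsx hxy
      have hsy := strue x y hsx hxy
      by_cases h1 : x ∈ D1 K u 𝒟 x0
      · by_cases h2 : y ∈ D1 K u 𝒟 x0
        · exact Or.inl (H.single x y hsx (blkins x y hxy ⟨fun _ => h2, fun _ => h1⟩))
        · exact Or.inr (Or.inl (aux x y hsy hxy h1 h2))
      · by_cases h2 : y ∈ D1 K u 𝒟 x0
        · obtain ⟨h3, h4⟩ := aux y x hsx hxy.symm h2 h1
          exact Or.inr (Or.inr ⟨h4, h3⟩)
        · exact Or.inl (H.single x y hsx (blkins x y hxy ⟨fun h => absurd h h1, fun h => absurd h h2⟩))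
    · intro c hc
      obtain ⟨D, hD, h1, h2⟩ := H.ord c hc
      rcases Finset.mem_insert.1 hD with rfl | hD
      · rcases mem_D1.1 h1 with ⟨D', hD', h3, h4⟩ | h3
        · refine Or.inl ⟨D', hD', h3, fun h5 => h2 (mem_D1.2 (Or.inl ⟨D', hD', h5, h4⟩))⟩
        · by_cases h4 : Blk 𝒟 (K.tail c) x0
          · refine Or.inr ⟨h3, ?_⟩
            exact H.single _ _ (H.lab c hc).1 (blkins _ _ (h4.trans hb)
              ⟨fun h => absurd h h2, fun h => absurd h hy⟩)
          · unfold Blk at h4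
            push Not at h4
            obtain ⟨D', hD', h5⟩ := h4
            rcases h5 with ⟨h5, h6⟩ | ⟨h5, h6⟩
            · exact absurd (mem_D1.2 (Or.inl ⟨D', hD', h5, h6⟩)) h2
            · exact Or.inl ⟨D', hD', (hv.sat D' hD' _ _ h3).2 h6, h5⟩
      · exact Or.inl ⟨D, hD, h1, h2⟩
  · rintro ⟨B, ho⟩
    have h0 : ∃ D ∈ 𝒟, x0 ∉ D := by
      by_contra hno
      push Not at hno
      have : s x0 = false := (B.first x0).2 hno
      rw [this] at hx0
      exact absurd hx0 (by decide)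
    obtain ⟨D0, hD0, hxD0⟩ := h0
    refine ⟨B.sub, ⟨?_, ?_, ?_, ?_⟩, ?_, ?_, ?_, B.spl, B.lab, ?_⟩
    · intro D hD
      rcases Finset.mem_insert.1 hD with rfl | hD
      · exact ⟨x0, hx⟩
      · exact hv.ne D hD
    · intro D hD
      rcases Finset.mem_insert.1 hD with rfl | hD
      · intro h
        exact hy (h ▸ Finset.mem_univ y0)
      · exact hv.top D hD
    · intro D hD x y hxy
      rcases Finset.mem_insert.1 hD with rfl | hD
      · exact sat_D1 hK hv hxy
      · exact hv.sat D hD x y hxy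
    · have key : ∀ D ∈ 𝒟, D ⊆ D1 K u 𝒟 x0 ∨ D1 K u 𝒟 x0 ⊆ D := by
        intro D hD
        by_cases h1 : x0 ∈ D
        · right
          intro z hz
          rcases mem_D1.1 hz with ⟨D', hD', h2, h3⟩ | h2
          · rcases hv.chain D' hD' D hD with h4 | h4
            · exact h4 h2
            · exact absurd (h4 h1) h3
          · exact (hv.sat D hD _ _ h2).2 h1
        · left
          intro z hz
          exact mem_D1.2 (Or.inl ⟨D, hD, hz, h1⟩)
      intro D hD D' hD'
      rcases Finset.mem_insert.1 hD with rfl | hD <;> rcases Finset.mem_insert.1 hD' with rfl | hD'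
      · exact Or.inl (Finset.Subset.refl _)
      · exact (key D' hD').symm
      · exact key D hD
      · exact hv.chain D hD D' hD'
    · intro D hD
      rcases Finset.mem_insert.1 hD with rfl | hD
      · exact mem_D1.2 (Or.inl ⟨D0, hD0, hn D0 hD0, hxD0⟩)
      · exact hn D hD
    · intro x
      rw [B.first x]
      constructor
      · intro h D hD
        rcases Finset.mem_insert.1 hD with rfl | hD
        · exact mem_D1.2 (Or.inl ⟨D0, hD0, h D0 hD0, hxD0⟩)
        · exact h D hD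
      · intro h D hD
        exact h D (Finset.mem_insert_of_mem hD)
    · intro x y hsx hxy
      have h1 : Blk 𝒟 x y := fun D hD => hxy D (Finset.mem_insert_of_mem hD)
      have h2 := hxy (D1 K u 𝒟 x0) (Finset.mem_insert_self _ _)
      rcases B.tb x y hsx h1 with h3 | ⟨h3, h4⟩ | ⟨h3, h4⟩
      · exact h3
      · exfalso
        apply hy
        rw [← sat_D1 hK hv h4, ← h2, sat_D1 hK hv h3]
        exact hx
      · exfalso
        apply hy
        rw [← sat_D1 hK hv h3, h2, sat_D1 hK hv h4]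
        exact hx
    · intro c hc
      rcases ho c hc with ⟨D, hD, h1, h2⟩ | ⟨h1, h2⟩
      · exact ⟨D, Finset.mem_insert_of_mem hD, h1, h2⟩
      · refine ⟨_, Finset.mem_insert_self _ _, (sat_D1 hK hv h1).2 hx, ?_⟩
        rw [sat_D1 hK hv h2]
        exact hy

/-- shape of the terms of the second sum -/
theorem shape2 (hK : K.IsCore) {P : E} {v u w : Finset X} {s : E → Bool}
    {𝒟 : Finset (Finset E)} (hwu : w ⊆ u) {x0 y0 : E} (hx0 : s x0 = true)
    (hb : Blk 𝒟 x0 y0) (hne : ¬ K.same u x0 y0) {D : Finset E}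
    (hB : B0 𝒟 ⊂ D) (hc : ∀ c ∈ u \ w, K.Nsep 𝒟 c ∧ K.tail c ∈ D ∧ K.head c ∉ D)
    (hnum : K.num u + (u \ w).card = K.num w) (H : K.Xi0 P v s w (insert D 𝒟)) :
    w = u ∧ (D = D1 K u 𝒟 x0 ∨ D = D1 K u 𝒟 y0) := by
  have hm : K.Mrg w (u \ w) := by
    unfold Cube.Mrg
    rw [sd_sub hwu]
    exact hnum
  have co := B1.mrg_coarser hK hm
  rw [sd_sub hwu] at co
  have first : ∀ x, s x = false ↔ ∀ D ∈ 𝒟, x ∈ D := by
    intro x
    rw [H.first x]
    constructor
    · intro h D hD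
      exact h D (Finset.mem_insert_of_mem hD)
    · intro h D hD
      rcases Finset.mem_insert.1 hD with rfl | hD
      · apply hB.1
        unfold B0
        rw [Finset.mem_filter]
        exact ⟨Finset.mem_univ _, h⟩
      · exact h D hD
  have strue : ∀ x y, s x = true → Blk 𝒟 x y → s y = true := by
    intro x y h1 h2
    by_contra h3
    have h4 : s y = false := by simpa using h3
    have h5 : s x = false := (first x).2 fun D hD => (h2 D hD).2 ((first y).1 h4 D hD)
    rw [h5] at h1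
    exact absurd h1 (by decide)
  have hy0 := strue x0 y0 hx0 hb
  have sing : ∀ x y, s x = true → Blk 𝒟 x y → (x ∈ D ↔ y ∈ D) → K.same w x y := by
    intro x y h1 h2 h3
    refine H.single x y h1 ?_
    intro D' hD'
    rcases Finset.mem_insert.1 hD' with rfl | hD'
    · exact h3
    · exact h2 D' hD'
  have chain : ∀ D' ∈ 𝒟, D ⊆ D' ∨ D' ⊆ D := fun D' hD' =>
    H.valid.chain D (Finset.mem_insert_self _ _) D' (Finset.mem_insert_of_mem hD')
  have hsep : ¬ (x0 ∈ D ↔ y0 ∈ D) := fun h => hne (co _ _ (sing x0 y0 hx0 hb h))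
  -- the general argument with `x0 ∈ D`
  have main : ∀ x y, s x = true → s y = true → Blk 𝒟 x y → ¬ K.same u x y → x ∈ D → y ∉ D →
      w = u ∧ D = D1 K u 𝒟 x := by
    intro x y hsx hsy hxy hnxy hxD hyD
    have hblk : ∀ a b, Blk 𝒟 a b → a ∈ D → b ∉ D → Blk 𝒟 a x := by
      intro a b hab ha hb' D' hD'
      rcases chain D' hD' with h1 | h1
      · exact ⟨fun _ => h1 hxD, fun _ => h1 ha⟩
      · constructor
        · intro h2
          exact absurd (h1 ((hab D' hD').1 h2)) hb'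
        · intro h2
          exact absurd (h1 ((hxy D' hD').1 h2)) hyD
    have hw : w = u := by
      by_contra hwne
      obtain ⟨c, hcu, hcw⟩ : ∃ c ∈ u, c ∉ w := by
        by_contra hno
        push Not at hno
        exact hwne (Finset.Subset.antisymm hwu hno)
      have hcm : c ∈ u \ w := Finset.mem_sdiff.2 ⟨hcu, hcw⟩
      obtain ⟨h1, h2, h3⟩ := hc c hcm
      have h4 : Blk 𝒟 (K.tail c) (K.head c) := h1
      have h5 := hblk _ _ h4 h2 h3
      have h6 : K.same w (K.tail c) x := sing _ _ (strue _ _ hsx h5.symm) h5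
        ⟨fun _ => hxD, fun _ => h2⟩
      have h7 : Blk 𝒟 (K.head c) y := h4.symm.trans (h5.trans hxy)
      have h8 : K.same w (K.head c) y := sing _ _ (strue _ _ hsy h7.symm) h7
        ⟨fun h => absurd h h3, fun h => absurd h hyD⟩
      have h9 := (B1.mrg_loop hK hm c hcm).2
      rw [sd_sub hwu] at h9
      exact hnxy (B1.trans hK (B1.symm hK (co _ _ h6)) (B1.trans hK h9 (co _ _ h8)))
    refine ⟨hw, ?_⟩
    subst hw
    ext z
    rw [mem_D1]
    constructor
    · intro hz
      by_cases h1 : Blk 𝒟 z x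
      · right
        exact sing z x (strue _ _ hsx h1.symm) h1 ⟨fun _ => hxD, fun _ => hz⟩
      · left
        unfold Blk at h1
        push Not at h1
        obtain ⟨D', hD', h2⟩ := h1
        rcases h2 with ⟨h2, h3⟩ | ⟨h2, h3⟩
        · exact ⟨D', hD', h2, h3⟩
        · exfalso
          rcases chain D' hD' with h4 | h4
          · exact h2 (h4 hz)
          · exact hyD (h4 ((hxy D' hD').1 h3))
    · rintro (⟨D', hD', h1, h2⟩ | h1)
      · rcases chain D' hD' with h4 | h4
        · exact absurd (h4 hxD) h2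
        · exact h4 h1
      · exact (H.valid.sat D (Finset.mem_insert_self _ _) _ _ h1).2 hxD
  by_cases h1 : x0 ∈ D
  · have h2 : y0 ∉ D := fun h => hsep ⟨fun _ => h, fun _ => h1⟩
    obtain ⟨h3, h4⟩ := main x0 y0 hx0 hy0 hb hne h1 h2
    exact ⟨h3, Or.inl h4⟩
  · have h2 : y0 ∈ D := by
      by_contra h
      exact hsep ⟨fun h' => absurd h' h1, fun h' => absurd h' h⟩
    obtain ⟨h3, h4⟩ := main y0 x0 hy0 hx0 hb.symm (fun h => hne (B1.symm hK h)) h2 h1
    exact ⟨h3, Or.inr h4⟩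

/-- terms of the first sum -/
theorem shape1 (hK : K.IsSys eta) {s0 : Bool} {P : E} {v u w : Finset X} {s : E → Bool}
    {𝒟 : Finset (Finset E)} (hwu : w ⊆ u) {x0 y0 : E} (hx0 : s x0 = true)
    (hb : Blk 𝒟 x0 y0) (hne : ¬ K.same u x0 y0)
    (hc : ∀ c ∈ u \ w, K.Nsep 𝒟 c ∧ s (K.tail c) = true) (hAC : K.AC s0 u (u \ w))
    (H : K.Xi0 P v s w 𝒟) :
    ∃ e ∈ u \ v, (J K u x0 y0 e ∨ J K u y0 x0 e) ∧ Base K v u s 𝒟 x0 y0 ∧
      (∀ c ∈ u \ v, c ≠ e → R K 𝒟 c) ∧ w = u.erase e := by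
  have hC := hK.toIsCore
  have hw0 := sd_sub' hwu
  have h00 : K.same w x0 y0 := H.single x0 y0 hx0 hb
  rcases hAC with ⟨⟨e, he⟩, a, b, hab, hg⟩ | ⟨A, B, hAB, -, ⟨a0, ha0⟩, ⟨b0, hb0⟩, hcrs⟩
  · -- parallel
    have hja : K.same u x0 a ∨ K.same u x0 b := by
      by_contra hno
      push Not at hno
      have h1 := B1.inv_flip hC (fun x => K.same u x x0) u (u \ w)
        (fun x y hxy => propext ⟨fun h => B1.trans hC (B1.symm hC hxy) h,
          fun h => B1.trans hC hxy h⟩)
        (fun c hc' => propext ⟨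
          fun h => absurd (B1.trans hC (B1.symm hC h) (hg c hc').1) hno.1,
          fun h => absurd (B1.trans hC (B1.symm hC h) (hg c hc').2) hno.2⟩) x0 y0 (hw0.symm ▸ h00)
      have h2 : K.same u y0 x0 := by
        rw [← h1]
        exact B1.refl hC _ _
      exact hne (B1.symm hC h2)
    have hjb : K.same u y0 a ∨ K.same u y0 b := by
      by_contra hno
      push Not at hno
      have h1 := B1.inv_flip hC (fun x => K.same u x y0) u (u \ w)
        (fun x y hxy => propext ⟨fun h => B1.trans hC (B1.symm hC hxy) h,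
          fun h => B1.trans hC hxy h⟩)
        (fun c hc' => propext ⟨
          fun h => absurd (B1.trans hC (B1.symm hC h) (hg c hc').1) hno.1,
          fun h => absurd (B1.trans hC (B1.symm hC h) (hg c hc').2) hno.2⟩) x0 y0 (hw0.symm ▸ h00)
      have h2 : K.same u x0 y0 := by
        rw [h1]
        exact B1.refl hC _ _
      exact hne h2
    have hJ : ∀ c ∈ u \ w, J K u x0 y0 c ∨ J K u y0 x0 c := by
      intro c hc'
      obtain ⟨h1, h2⟩ := hg c hc'
      rcases hja with h3 | h3 <;> rcases hjb with h4 | h4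
      · exact absurd (B1.trans hC h3 (B1.symm hC h4)) hne
      · exact Or.inr ⟨B1.trans hC h2 (B1.symm hC h4), B1.trans hC h1 (B1.symm hC h3)⟩
      · exact Or.inl ⟨B1.trans hC h2 (B1.symm hC h3), B1.trans hC h1 (B1.symm hC h4)⟩
      · exact absurd (B1.trans hC h3 (B1.symm hC h4)) hne
    have hnl : ∀ c ∈ u \ w, ¬ K.Loop u c := by
      intro c hc' hl
      exact hab (B1.trans hC (B1.symm hC (hg c hc').1) (B1.trans hC hl (hg c hc').2))
    have hlw : ∀ c ∈ u \ w, K.Loop w c := fun c hc' => H.single _ _ (hc c hc').2 (hc c hc').1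
    -- only one arc
    have hone : u \ w = {e} := by
      by_contra hno
      obtain ⟨e', he', hee⟩ : ∃ e' ∈ u \ w, e' ≠ e := by
        by_contra h
        push Not at h
        exact hno (Finset.eq_singleton_iff_unique_mem.2 ⟨he, h⟩)
      have hl1 : ∀ c ∈ (u \ w) \ {e}, K.Loop (u ∆ {e}) c := by
        intro c hc'
        have hc2 := (Finset.mem_sdiff.1 hc').1
        refine (hC.merge u e (hnl e he) _ _).2 (Or.inr (Or.inl ⟨?_, ?_⟩))
        · exact B1.trans hC (hg c hc2).1 (B1.symm hC (hg e he).1)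
        · exact B1.trans hC (hg e he).2 (B1.symm hC (hg c hc2).2)
      have hp1 : ∀ c ∈ (u \ w) \ {e}, ∀ c' ∈ (u \ w) \ {e}, c ≠ c' →
          K.Loop ((u ∆ {e}) ∆ {c}) c' := by
        intro c hc1 c' hc2 hcc
        by_contra hnl'
        have hc3 := (Finset.mem_sdiff.1 hc1).1
        have hc4 := (Finset.mem_sdiff.1 hc2).1
        have hu : ∀ x, x ∈ (u \ w) \ {e} → x ∈ u ∆ {e} := by
          intro x hx
          rw [Finset.mem_sdiff, Finset.mem_sdiff, Finset.mem_singleton] at hx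
          rw [Finset.mem_symmDiff, Finset.mem_singleton]
          exact Or.inl ⟨hx.1.1, hx.2⟩
        refine hK.side1 (u ∆ {e}) c c' hcc ⟨fun _ => hu _ hc2, fun _ => hu _ hc1⟩
          (hl1 c hc1) (hl1 c' hc2) hnl' ?_
        refine hK.side2 u c c' ⟨fun _ => (Finset.mem_sdiff.1 hc4).1,
          fun _ => (Finset.mem_sdiff.1 hc3).1⟩ (hnl c hc3) (Or.inl ⟨?_, ?_⟩)
        · exact B1.trans hC (hg c hc3).1 (B1.symm hC (hg c' hc4).1)
        · exact B1.trans hC (hg c hc3).2 (B1.symm hC (hg c' hc4).2)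
      have hs := B1.spl_of_pairwise hC hl1 hp1
      have h1 := (B1.spl_loop hC hs e' (by
        rw [Finset.mem_sdiff, Finset.mem_singleton]
        exact ⟨he', hee⟩)).2
      rw [← B1.sd_split u (by simpa using he), hw0] at h1
      exact h1 (hlw e' he')
    have hwe : w = u.erase e := by
      have : w = u \ (u \ w) := (Finset.sdiff_sdiff_eq_self hwu).symm
      rw [this, hone, Finset.sdiff_singleton_eq_erase]
    have hev : e ∉ v := fun h => (Finset.mem_sdiff.1 he).2 (H.sub h)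
    have heu : e ∈ u := (Finset.mem_sdiff.1 he).1
    have hwd : u ∆ {e} = w := by
      rw [← hone]
      exact hw0
    have hin : ∀ c ∈ u \ v, c ≠ e → c ∈ w \ v := by
      intro c hc' hce
      rw [Finset.mem_sdiff] at hc' ⊢
      rw [hwe, Finset.mem_erase]
      exact ⟨⟨hce, hc'.1⟩, hc'.2⟩
    refine ⟨e, Finset.mem_sdiff.2 ⟨heu, hev⟩, hJ e he, ⟨H.sub.trans hwu, H.first, ?_, ?_, ?_⟩,
      fun c hc' hce => H.ord c (hin c hc' hce), hwe⟩
    · have h1 : w \ v ⊆ u \ v := Finset.sdiff_subset_sdiff hwu (Finset.Subset.refl _)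
      refine (B1.spl_iff hC h1).2 ⟨H.spl, ?_⟩
      have h2 : (u \ v) \ (w \ v) = {e} := by
        ext c
        simp only [Finset.mem_sdiff, Finset.mem_singleton]
        constructor
        · rintro ⟨⟨h2, h3⟩, h4⟩
          by_contra h5
          exact h4 (Finset.mem_sdiff.1 (hin c (Finset.mem_sdiff.2 ⟨h2, h3⟩) h5))
        · rintro rfl
          exact ⟨⟨heu, hev⟩, fun h => (Finset.mem_sdiff.1 he).2 h.1⟩
      rw [h2, sd_sub H.sub, B1.spl_single hC]
      exact hlw e he
    · intro c hc'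
      by_cases hce : c = e
      · subst hce
        refine ⟨(hc c he).2, ?_⟩
        by_contra h3
        have h4 : s (K.head c) = false := by simpa using h3
        have h5 : s (K.tail c) = false := (H.first _).2 fun D hD =>
          ((hc c he).1 D hD).2 ((H.first _).1 h4 D hD)
        rw [(hc c he).2] at h5
        exact absurd h5 (by decide)
      · exact H.lab c (hin c hc' hce)
    · intro x y hsx hxy
      have h1 := H.single x y hsx hxy
      rw [← hwd] at h1
      rcases (hC.merge u e (hnl e he) x y).1 h1 with h2 | ⟨h2, h3⟩ | ⟨h2, h3⟩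
      · exact Or.inl h2
      · rcases hJ e he with ⟨h4, h5⟩ | ⟨h4, h5⟩
        · exact Or.inr (Or.inr ⟨B1.trans hC h2 h5, B1.trans hC (B1.symm hC h3) h4⟩)
        · exact Or.inr (Or.inl ⟨B1.trans hC h2 h5, B1.trans hC (B1.symm hC h3) h4⟩)
      · rcases hJ e he with ⟨h4, h5⟩ | ⟨h4, h5⟩
        · exact Or.inr (Or.inl ⟨B1.trans hC h2 h4, B1.trans hC (B1.symm hC h3) h5⟩)
        · exact Or.inr (Or.inr ⟨B1.trans hC h2 h4, B1.trans hC (B1.symm hC h3) h5⟩)
  · -- bunches: all arcs are loops at `u`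
    exfalso
    have hloop : ∀ c ∈ u \ w, K.same u (K.tail c) (K.head c) := by
      intro c hc'
      rw [← hAB, Finset.mem_union] at hc'
      rcases hc' with h1 | h1
      · exact (hcrs c h1 b0 hb0).1
      · exact (hcrs a0 ha0 c h1).2.1
    have h1 := B1.inv_flip hC (fun x => K.same u x x0) u (u \ w)
        (fun x y hxy => propext ⟨fun h => B1.trans hC (B1.symm hC hxy) h,
          fun h => B1.trans hC hxy h⟩)
        (fun c hc' => propext ⟨
          fun h => B1.trans hC (B1.symm hC (hloop c hc')) h,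
          fun h => B1.trans hC (hloop c hc') h⟩) x0 y0 (hw0.symm ▸ h00)
    have h2 : K.same u y0 x0 := by
      rw [← h1]
      exact B1.refl hC _ _
    exact hne (B1.symm hC h2)

/-- terms of the first sum, converse -/
theorem term1 (hK : K.IsCore) {s0 : Bool} {P : E} {v u : Finset X} {s : E → Bool}
    {𝒟 : Finset (Finset E)} (hv : K.Valid u 𝒟) (hn : Nrm P 𝒟) {x0 y0 : E}
    (hb : Blk 𝒟 x0 y0) (hne : ¬ K.same u x0 y0) {e : X} (he : e ∈ u \ v)
    (hJ : J K u x0 y0 e) (hB : Base K v u s 𝒟 x0 y0) (ho : ∀ c ∈ u \ v, c ≠ e → R K 𝒟 c) :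
    (∀ c ∈ u \ u.erase e, K.Nsep 𝒟 c ∧ s (K.tail c) = true) ∧
        K.AC s0 u (u \ u.erase e) ∧ K.Xi0 P v s (u.erase e) 𝒟 := by
  have heu := (Finset.mem_sdiff.1 he).1
  have hev := (Finset.mem_sdiff.1 he).2
  have h1 : u \ u.erase e = {e} := by
    ext x
    simp only [Finset.mem_sdiff, Finset.mem_erase, Finset.mem_singleton]
    constructor
    · rintro ⟨h1, h2⟩
      by_contra h3
      exact h2 ⟨h3, h1⟩
    · rintro rfl
      exact ⟨heu, fun h => h.1 rfl⟩
  have hnl := J_nonloop hK hne hJ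
  have hue : u ∆ {e} = u.erase e := by
    rw [← h1]
    exact sd_sub' (Finset.erase_subset _ _)
  have hns : K.Nsep 𝒟 e := J_blk hK hv hb hJ
  rw [h1]
  have hsub : v ⊆ u.erase e := fun x hx => Finset.mem_erase.2
    ⟨fun h => hev (h ▸ hx), hB.sub hx⟩
  have hin : ∀ c ∈ u.erase e \ v, c ∈ u \ v ∧ c ≠ e := by
    intro c hc
    rw [Finset.mem_sdiff, Finset.mem_erase] at hc
    exact ⟨Finset.mem_sdiff.2 ⟨hc.1.2, hc.2⟩, hc.1.1⟩
  refine ⟨?_, Or.inl ⟨⟨e, by simp⟩, K.tail e, K.head e, hnl, ?_⟩, hsub,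
    ⟨hv.ne, hv.top, ?_, hv.chain⟩, hn, hB.first, ?_, ?_, ?_, ?_⟩
  · intro c hc
    rw [Finset.mem_singleton] at hc
    subst hc
    exact ⟨hns, (hB.lab _ he).1⟩
  · intro c hc
    rw [Finset.mem_singleton] at hc
    subst hc
    exact ⟨B1.refl hK _ _, B1.refl hK _ _⟩
  · intro D hD x y hxy
    rw [← hue] at hxy
    have := B1.inv_flip1 hK (fun x => x ∈ D) u e
      (fun x y hxy => propext (hv.sat D hD x y hxy)) (propext (hns D hD)) x y hxy
    exact iff_of_eq this
  · intro x y hsx hxy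
    rw [← hue, hK.merge u e hnl]
    rcases hB.tb x y hsx hxy with h2 | ⟨h2, h3⟩ | ⟨h2, h3⟩
    · exact Or.inl h2
    · exact Or.inr (Or.inr ⟨B1.trans hK h2 (B1.symm hK hJ.1),
        B1.trans hK hJ.2 (B1.symm hK h3)⟩)
    · exact Or.inr (Or.inl ⟨B1.trans hK h2 (B1.symm hK hJ.2),
        B1.trans hK hJ.1 (B1.symm hK h3)⟩)
  · have h2 : u.erase e \ v ⊆ u \ v :=
      Finset.sdiff_subset_sdiff (Finset.erase_subset _ _) (Finset.Subset.refl _)
    exact ((B1.spl_iff hK h2).1 hB.spl).1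
  · intro c hc
    exact hB.lab c (hin c hc).1
  · intro c hc
    exact ho c (hin c hc).1 (hin c hc).2

end

open Classical in
theorem inner (hK : K.IsSys eta) (s0 : Bool) (P : E)
    (v u : Finset X) (s : E → Bool) (hs : ∀ x y, K.same v x y → s x = s y) (hP : s P = false)
    (𝒟 : Finset (Finset E)) (hv : K.Valid u 𝒟) (hn : Nrm P 𝒟)
    (hsing : ¬ ∀ x y, s x = true → (∀ D ∈ 𝒟, (x ∈ D ↔ y ∈ D)) → K.same u x y) :
    (∑ w ∈ u.powerset, if (∀ c ∈ u \ w, K.Nsep 𝒟 c ∧ s (K.tail c) = true) ∧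
        K.AC s0 u (u \ w) ∧ K.Xi0 P v s w 𝒟 then (1 : ZMod 2) else 0) +
    (∑ w ∈ u.powerset, ∑ D : Finset E, if D ∉ 𝒟 ∧ B0 𝒟 ⊂ D ∧
        (∀ c ∈ u \ w, K.Nsep 𝒟 c ∧ K.tail c ∈ D ∧ K.head c ∉ D) ∧
        K.num u + (u \ w).card = K.num w ∧ K.Xi0 P v s w (insert D 𝒟) then (1 : ZMod 2) else 0) =
    0 := by
  have hC := hK.toIsCore
  push Not at hsing
  obtain ⟨x0, y0, hx0, hb0, hne⟩ := hsing
  have hb : Blk 𝒟 x0 y0 := hb0
  have hne' : ¬ K.same u y0 x0 := fun h => hne (B1.symm hC h)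
  -- the three conditions
  set T1 : Prop := Base K v u s 𝒟 x0 y0 ∧ ∀ c ∈ u \ v, R K 𝒟 c ∨ J K u x0 y0 c with hT1
  set T2 : Prop := Base K v u s 𝒟 x0 y0 ∧ ∀ c ∈ u \ v, R K 𝒟 c ∨ J K u y0 x0 c with hT2
  set T3 : Prop := ∃ e ∈ u \ v, (J K u x0 y0 e ∨ J K u y0 x0 e) ∧ Base K v u s 𝒟 x0 y0 ∧
      (∀ c ∈ u \ v, c ≠ e → R K 𝒟 c) with hT3
  have strue : ∀ (first : ∀ x, s x = false ↔ ∀ D ∈ 𝒟, x ∈ D), s y0 = true := by
    intro first
    by_contra h3
    have h4 : s y0 = false := by simpa using h3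
    have h5 : s x0 = false := (first x0).2 fun D hD => (hb D hD).2 ((first y0).1 h4 D hD)
    rw [h5] at hx0
    exact absurd hx0 (by decide)
  have hnR : ∀ c, (J K u x0 y0 c ∨ J K u y0 x0 c) → ¬ R K 𝒟 c := by
    rintro c (h | h)
    · exact R_of_blk (J_blk hC hv hb h)
    · exact R_of_blk (J_blk hC hv hb.symm h)
  have hboth : ∀ c, J K u x0 y0 c → J K u y0 x0 c → False := fun c h1 h2 =>
    hne (B1.trans hC (B1.symm hC h1.1) h2.1)
  -- the first sum
  have S1 : (∑ w ∈ u.powerset, if (∀ c ∈ u \ w, K.Nsep 𝒟 c ∧ s (K.tail c) = true) ∧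
        K.AC s0 u (u \ w) ∧ K.Xi0 P v s w 𝒟 then (1 : ZMod 2) else 0) = if T3 then 1 else 0 := by
    by_cases h3 : T3
    · rw [if_pos h3]
      obtain ⟨e, he, hJ, hB, ho⟩ := h3
      rw [Finset.sum_eq_single (u.erase e)]
      · rw [if_pos]
        rcases hJ with hJ | hJ
        · exact term1 hC hv hn hb hne he hJ hB ho
        · exact term1 hC hv hn hb.symm hne' he hJ hB.swap ho
      · intro w hw hwe
        rw [if_neg]
        rintro ⟨h1, h2, h3⟩
        obtain ⟨e', he', hJ', -, ho', hw'⟩ := shape1 hK (Finset.mem_powerset.1 hw) hx0 hb hne h1 h2 h3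
        have : e' = e := by
          by_contra hee
          exact hnR e' hJ' (ho e' he' hee)
        subst this
        exact hwe hw'
      · intro h
        exact absurd (Finset.mem_powerset.2 (Finset.erase_subset _ _)) h
    · rw [if_neg h3]
      apply Finset.sum_eq_zero
      intro w hw
      rw [if_neg]
      rintro ⟨h1, h2, h4⟩
      obtain ⟨e', he', hJ', hB, ho', hw'⟩ := shape1 hK (Finset.mem_powerset.1 hw) hx0 hb hne h1 h2 h4
      exact h3 ⟨e', he', hJ', hB, ho'⟩
  -- the second sum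
  have hDne : D1 K u 𝒟 x0 ≠ D1 K u 𝒟 y0 := by
    intro h
    apply y0_notMem hC hb hne
    rw [h]
    exact x0_mem hC u 𝒟 y0
  have hD1 : D1 K u 𝒟 x0 ∉ 𝒟 := by
    intro h
    exact y0_notMem hC hb hne ((hb _ h).1 (x0_mem hC u 𝒟 x0))
  have hD2 : D1 K u 𝒟 y0 ∉ 𝒟 := by
    intro h
    exact y0_notMem hC hb.symm hne' ((hb _ h).2 (x0_mem hC u 𝒟 y0))
  have hss : ∀ x, s x = true → (∀ x, s x = false ↔ ∀ D ∈ 𝒟, x ∈ D) → B0 𝒟 ⊂ D1 K u 𝒟 x := by
    intro x hx first
    have h0 : ∃ D ∈ 𝒟, x ∉ D := by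
      by_contra hno
      push Not at hno
      have : s x = false := (first x).2 hno
      rw [this] at hx
      exact absurd hx (by decide)
    obtain ⟨D0, hD0, hxD0⟩ := h0
    rw [Finset.ssubset_iff_of_subset]
    · refine ⟨x, x0_mem hC u 𝒟 x, ?_⟩
      unfold B0
      rw [Finset.mem_filter]
      exact fun h => hxD0 (h.2 D0 hD0)
    · intro z hz
      unfold B0 at hz
      rw [Finset.mem_filter] at hz
      exact mem_D1.2 (Or.inl ⟨D0, hD0, hz.2 D0 hD0, hxD0⟩)
  have S2 : (∑ w ∈ u.powerset, ∑ D : Finset E, if D ∉ 𝒟 ∧ B0 𝒟 ⊂ D ∧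
        (∀ c ∈ u \ w, K.Nsep 𝒟 c ∧ K.tail c ∈ D ∧ K.head c ∉ D) ∧
        K.num u + (u \ w).card = K.num w ∧ K.Xi0 P v s w (insert D 𝒟) then (1 : ZMod 2) else 0) =
      (if T1 then 1 else 0) + (if T2 then 1 else 0) := by
    rw [Finset.sum_eq_single u]
    · have e1 : ∀ D : Finset E, (D ∉ 𝒟 ∧ B0 𝒟 ⊂ D ∧
        (∀ c ∈ u \ u, K.Nsep 𝒟 c ∧ K.tail c ∈ D ∧ K.head c ∉ D) ∧
        K.num u + (u \ u).card = K.num u ∧ K.Xi0 P v s u (insert D 𝒟)) ↔
          ((D = D1 K u 𝒟 x0 ∧ T1) ∨ (D = D1 K u 𝒟 y0 ∧ T2)) := by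
        intro D
        constructor
        · rintro ⟨h1, h2, h3, h4, h5⟩
          rcases (shape2 hC (Finset.Subset.refl u) hx0 hb hne h2 h3 h4 h5).2 with h6 | h6
          · subst h6
            exact Or.inl ⟨rfl, (xi0_D1 hC hv hn hx0 hb hne).1 h5⟩
          · subst h6
            right
            refine ⟨rfl, ?_⟩
            have hy0 : s y0 = true := by
              apply strue
              intro x
              rw [h5.first x]
              constructor
              · intro h D hD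
                exact h D (Finset.mem_insert_of_mem hD)
              · intro h D hD
                rcases Finset.mem_insert.1 hD with rfl | hD
                · apply h2.1
                  unfold B0
                  rw [Finset.mem_filter]
                  exact ⟨Finset.mem_univ _, h⟩
                · exact h D hD
            have h7 := (xi0_D1 hC hv hn hy0 hb.symm hne').1 h5
            exact ⟨h7.1.swap, h7.2⟩
        · have triv : (∀ c ∈ u \ u, K.Nsep 𝒟 c ∧ K.tail c ∈ D ∧ K.head c ∉ D) ∧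
              K.num u + (u \ u).card = K.num u := by
            simp
          rintro (⟨h1, h2⟩ | ⟨h1, h2⟩)
          · subst h1
            exact ⟨hD1, hss x0 hx0 h2.1.first, triv.1, triv.2,
              (xi0_D1 hC hv hn hx0 hb hne).2 h2⟩
          · subst h1
            have hy0 := strue h2.1.first
            exact ⟨hD2, hss y0 hy0 h2.1.first, triv.1, triv.2,
              (xi0_D1 hC hv hn hy0 hb.symm hne').2 ⟨h2.1.swap, h2.2⟩⟩
      have e2 : ∀ D : Finset E, (if (D = D1 K u 𝒟 x0 ∧ T1) ∨ (D = D1 K u 𝒟 y0 ∧ T2)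
          then (1 : ZMod 2) else 0) = (if D = D1 K u 𝒟 x0 then (if T1 then 1 else 0) else 0) +
          (if D = D1 K u 𝒟 y0 then (if T2 then 1 else 0) else 0) := by
        intro D
        by_cases h1 : D = D1 K u 𝒟 x0
        · have h2 : D ≠ D1 K u 𝒟 y0 := fun h => hDne (h1.symm.trans h)
          simp [h1, hDne]
        · simp [h1]
          by_cases h2 : D = D1 K u 𝒟 y0 <;> simp [h2]
      rw [Finset.sum_congr rfl (fun D _ => if_congr (e1 D) rfl rfl),
        Finset.sum_congr rfl (fun D _ => e2 D), Finset.sum_add_distrib,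
        Finset.sum_ite_eq' Finset.univ, Finset.sum_ite_eq' Finset.univ]
      simp
    · intro w hw hwu
      apply Finset.sum_eq_zero
      intro D _
      rw [if_neg]
      rintro ⟨h1, h2, h3, h4, h5⟩
      exact hwu (shape2 hC (Finset.mem_powerset.1 hw) hx0 hb hne h2 h3 h4 h5).1
    · intro h
      exact absurd (Finset.mem_powerset.2 (Finset.Subset.refl u)) h
  rw [S1, S2]
  have two : (1 : ZMod 2) + 1 = 0 := by decide
  by_cases h1 : T1
  · by_cases h2 : T2
    · have h3 : ¬ T3 := by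
        rintro ⟨e, he, hJ, -, -⟩
        rcases h1.2 e he with h | h
        · exact hnR e hJ h
        · rcases h2.2 e he with h' | h'
          · exact hnR e hJ h'
          · exact hboth e h h'
      rw [if_neg h3, if_pos h1, if_pos h2, two, add_zero]
    · have h3 : T3 := by
        have h4 : ∃ e ∈ u \ v, ¬ (R K 𝒟 e ∨ J K u y0 x0 e) := by
          by_contra hno
          push Not at hno
          exact h2 ⟨h1.1, fun c hc => by
            by_contra h
            push Not at h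
            exact h.2 (by
              have := hno c hc
              tauto)⟩
        obtain ⟨e, he, h5⟩ := h4
        have hJ : J K u x0 y0 e := by
          rcases h1.2 e he with h | h
          · exact absurd (Or.inl h) h5
          · exact h
        refine ⟨e, he, Or.inl hJ, h1.1, ?_⟩
        intro c hc hce
        rcases h1.2 c hc with h | h
        · exact h
        · exact absurd (forest hC h1.1.sub h1.1.spl hne he hc hce (J_merge hC hne hJ)
            (J_nonloop hC hne hJ) (Or.inl h)) id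
      rw [if_pos h3, if_pos h1, if_neg h2, add_zero, two]
  · by_cases h2 : T2
    · have h3 : T3 := by
        have h4 : ∃ e ∈ u \ v, ¬ (R K 𝒟 e ∨ J K u x0 y0 e) := by
          by_contra hno
          push Not at hno
          exact h1 ⟨h2.1, fun c hc => by
            by_contra h
            push Not at h
            exact h.2 (by
              have := hno c hc
              tauto)⟩
        obtain ⟨e, he, h5⟩ := h4
        have hJ : J K u y0 x0 e := by
          rcases h2.2 e he with h | h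
          · exact absurd (Or.inl h) h5
          · exact h
        refine ⟨e, he, Or.inr hJ, h2.1, ?_⟩
        intro c hc hce
        rcases h2.2 c hc with h | h
        · exact h
        · exact absurd (forest hC h2.1.sub h2.1.spl hne' he hc hce (J_merge hC hne' hJ)
            (J_nonloop hC hne' hJ) (Or.inl h)) id
      rw [if_pos h3, if_neg h1, if_pos h2, zero_add, two]
    · have h3 : ¬ T3 := by
        rintro ⟨e, he, hJ | hJ, hB, ho⟩
        · apply h1
          refine ⟨hB, fun c hc => ?_⟩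
          by_cases hce : c = e
          · subst hce
            exact Or.inr hJ
          · exact Or.inl (ho c hc hce)
        · apply h2
          refine ⟨hB, fun c hc => ?_⟩
          by_cases hce : c = e
          · subst hce
            exact Or.inr hJ
          · exact Or.inl (ho c hc hce)
      rw [if_neg h3, if_neg h1, if_neg h2, add_zero, add_zero]

end C1d
end Pool.Agent.helper20.Sz
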